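import Mathlib

set_option autoImplicit false

/-!
First-Fit on posets avoiding a fixed poset of width two: the order on addresses and the excluded
pattern.
-/

namespace Pool.Agent.H800Z.FF

/-- the four kinds of points of one round -/
inductive K | z | y | w | j
  deriving DecidableEq, Fintype

/-- a letter of an address: kind, round, coarse colour, fine colour -/
structure Hd where
  k : K
  t : ℕ
  c : ℕ
  f : ℕ
  deriving DecidableEq

/-- the strict order on letters -/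
def hl : K → ℕ → ℕ → ℕ → K → ℕ → ℕ → ℕ → Prop
  | .z, t, c, f, .z, t', c', f' => t < t' ∨ (t = t' ∧ (c' < c ∨ (c' = c ∧ f' < f)))
  | .z, t, c, _, .y, t', c', _ => t < t' ∨ (t = t' ∧ c' ≤ c)
  | .z, t, _, _, .w, t', _, _ => t ≤ t'
  | .z, t, c, _, .j, t', c', _ => t < t' ∨ (t = t' ∧ c' ≤ c)
  | .y, t, _, _, .z, t', _, _ => t < t'
  | .y, t, c, f, .y, t', c', f' => t < t' ∨ (t = t' ∧ (c' < c ∨ (c' = c ∧ f' < f)))
  | .y, t, c, f, .w, t', c', f' => t < t' ∨ (t = t' ∧ (c' < c ∨ (c' = c ∧ f' ≤ f)))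
  | .y, t, _, _, .j, t', _, _ => t < t'
  | .w, t, c, f, .z, t', c', f' => t + 1 < t' ∨ (t + 1 = t' ∧ (c' < c ∨ (c' = c ∧ f' ≤ f)))
  | .w, t, _, _, .y, t', _, _ => t < t'
  | .w, t, c, f, .w, t', c', f' => t < t' ∨ (t = t' ∧ c' = c ∧ f' < f)
  | .w, t, _, _, .j, t', _, _ => t < t'
  | .j, t, _, _, .z, t', _, _ => t < t'
  | .j, t, c, f, .y, t', c', f' => t < t' ∨ (t = t' ∧ (c' < c ∨ (c' = c ∧ f' < f)))
  | .j, t, _, _, .w, t', _, _ => t ≤ t'
  | .j, t, c, f, .j, t', c', f' => t < t' ∨ (t = t' ∧ (c' < c ∨ (c' = c ∧ f' < f)))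

def hlt (a b : Hd) : Prop := hl a.k a.t a.c a.f b.k b.t b.c b.f

theorem hlt_irrefl (a : Hd) : ¬ hlt a a := by
  obtain ⟨k, t, c, f⟩ := a
  cases k <;> simp only [hlt, hl] <;> omega

theorem hlt_trans {a b d : Hd} (h1 : hlt a b) (h2 : hlt b d) : hlt a d := by
  obtain ⟨k, t, c, f⟩ := a
  obtain ⟨k', t', c', f'⟩ := b
  obtain ⟨k'', t'', c'', f''⟩ := d
  cases k <;> cases k' <;> cases k'' <;> simp only [hlt, hl] at h1 h2 ⊢ <;> omega

/-- lexicographic strict order on addresses -/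
def lt : List Hd → List Hd → Prop
  | a :: l, b :: m => hlt a b ∨ (a = b ∧ lt l m)
  | [], _ => False
  | _ :: _, [] => False

theorem lt_irrefl' : ∀ l : List Hd, ¬ lt l l
  | [] => by simp [lt]
  | a :: l => by
    simp only [lt, true_and, not_or]
    exact ⟨hlt_irrefl a, lt_irrefl' l⟩

theorem lt_trans' : ∀ {l m n : List Hd}, lt l m → lt m n → lt l n
  | [], _, _, h, _ => by simp [lt] at h
  | _ :: _, [], _, h, _ => by simp [lt] at h
  | _ :: _, _ :: _, [], _, h => by simp [lt] at h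
  | a :: l, b :: m, d :: n, h1, h2 => by
    simp only [lt] at h1 h2 ⊢
    rcases h1 with h1 | ⟨rfl, h1⟩
    · rcases h2 with h2 | ⟨rfl, _⟩
      · exact Or.inl (hlt_trans h1 h2)
      · exact Or.inl h1
    · rcases h2 with h2 | ⟨rfl, h2⟩
      · exact Or.inl h2
      · exact Or.inr ⟨rfl, lt_trans' h1 h2⟩

def le (l m : List Hd) : Prop := l = m ∨ lt l m

theorem le_trans' {l m n : List Hd} (h1 : le l m) (h2 : le m n) : le l n := by
  rcases h1 with rfl | h1
  · exact h2
  · rcases h2 with rfl | h2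
    · exact Or.inr h1
    · exact Or.inr (lt_trans' h1 h2)

theorem le_antisymm' {l m : List Hd} (h1 : le l m) (h2 : le m l) : l = m := by
  rcases h1 with rfl | h1
  · rfl
  · rcases h2 with rfl | h2
    · rfl
    · exact absurd (lt_trans' h1 h2) (lt_irrefl' l)

/-- weak order on letters -/
def hle (a b : Hd) : Prop := a = b ∨ hlt a b

/-- incomparable letters -/
def hinc (a b : Hd) : Prop := ¬ hle a b ∧ ¬ hle b a

theorem hle_iff (a b : Hd) : hle a b ↔
    (a.k = b.k ∧ a.t = b.t ∧ a.c = b.c ∧ a.f = b.f) ∨ hl a.k a.t a.c a.f b.k b.t b.c b.f := by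
  obtain ⟨k, t, c, f⟩ := a
  obtain ⟨k', t', c', f'⟩ := b
  simp [hle, hlt]

/-- the transitions between two consecutive thick layers -/
def Tr : K → K → Prop
  | .j, .y => True
  | .y, .w => True
  | .w, .z => True
  | .z, .y => True
  | .z, .j => True
  | _, _ => False

theorem pair (a0 a1 b1 b2 : Hd) (ka kb : K) (h0 : a0.k = ka) (h1 : a1.k = ka) (h2 : b1.k = kb)
    (h3 : b2.k = kb) (i1 : hinc a0 b1) (i2 : hinc a0 b2) (i3 : hinc a1 b2) (l1 : hle a1 b1)
    (l2 : hle a1 a0) : Tr ka kb := by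
  simp only [hinc, hle_iff, h0, h1, h2, h3] at i1 i2 i3 l1 l2
  cases ka <;> cases kb <;> simp only [Tr] <;>
    simp only [hl, true_and, false_and, false_or, reduceCtorEq] at i1 i2 i3 l1 l2 <;> omega

theorem zjy (a b d : Hd) (h0 : a.k = .z) (h1 : b.k = .j) (h2 : d.k = .y)
    (i1 : hinc a b) (i2 : hinc b d) (l : hle a d) : False := by
  simp only [hinc, hle_iff, h0, h1, h2, hl, false_and, false_or, reduceCtorEq] at i1 i2 l
  omega

theorem zyw (z0 z1 y0 y1 y2 w1 w3 : Hd) (h0 : z0.k = .z) (h1 : z1.k = .z) (h2 : y0.k = .y)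
    (h3 : y1.k = .y) (h4 : y2.k = .y) (h5 : w1.k = .w) (h6 : w3.k = .w)
    (i1 : hinc z0 y1) (i2 : hinc z0 y2) (i3 : hinc z1 y2) (i4 : hinc y0 w1) (i5 : hinc y0 w3)
    (i6 : hinc y2 w3) (l1 : hle z1 y1) (l2 : hle y1 w1) (l3 : hle w3 w1) : False := by
  simp only [hinc, hle_iff, h0, h1, h2, h3, h4, h5, h6, hl, true_and, false_and, false_or,
    reduceCtorEq] at i1 i2 i3 i4 i5 i6 l1 l2 l3
  omega

theorem wzy (w0 w2 z1 z2 z3 y2 : Hd) (k : K) (hk : k = .y ∨ k = .j) (h0 : w0.k = .w)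
    (h1 : w2.k = .w) (h2 : z1.k = .z) (h3 : z2.k = .z) (h4 : z3.k = .z) (h5 : y2.k = k)
    (i1 : hinc w0 z1) (i2 : hinc w0 z2) (i3 : hinc w0 z3) (i4 : hinc w2 z3) (i5 : hinc z1 y2)
    (l1 : hle w2 z2) (l2 : hle z2 y2) (l3 : hle w2 w0) : False := by
  rcases hk with rfl | rfl <;>
  · simp only [hinc, hle_iff, h0, h1, h2, h3, h4, h5, hl, true_and, false_and, false_or,
      reduceCtorEq] at i1 i2 i3 i4 i5 l1 l2 l3
    omega

/-- five homogeneous layers with four tracks do not occur among letters -/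
theorem no_five (h : ℕ → ℕ → Hd) (κ : ℕ → K) (hk : ∀ s i, s < 5 → i < 4 → (h s i).k = κ s)
    (hi : ∀ s i j, s < 4 → i < j → j < 4 → hinc (h s i) (h (s + 1) j))
    (hb : ∀ s i j, s < 4 → j ≤ i → i < 4 → hle (h s i) (h (s + 1) j))
    (hc : ∀ s i j, s < 5 → j ≤ i → i < 4 → hle (h s i) (h s j))
    (hd : ∀ s i j, s < 3 → i < 4 → j < 4 → hle (h s i) (h (s + 2) j)) : False := by
  have tr : ∀ s, s < 4 → Tr (κ s) (κ (s + 1)) := fun s hs =>
    pair (h s 0) (h s 1) (h (s + 1) 1) (h (s + 1) 2) _ _ (hk _ _ (by omega) (by omega))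
      (hk _ _ (by omega) (by omega)) (hk _ _ (by omega) (by omega)) (hk _ _ (by omega) (by omega))
      (hi _ _ _ hs (by omega) (by omega)) (hi _ _ _ hs (by omega) (by omega))
      (hi _ _ _ hs (by omega) (by omega)) (hb _ _ _ hs (by omega) (by omega))
      (hc _ _ _ (by omega) (by omega) (by omega))
  have t1 : ∀ s, s < 3 → κ s = .z → κ (s + 1) = .j → κ (s + 2) = .y → False := by
    intro s hs a b d
    exact zjy (h s 0) (h (s + 1) 1) (h (s + 2) 2) (a ▸ hk _ _ (by omega) (by omega))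
      (b ▸ hk _ _ (by omega) (by omega)) (d ▸ hk _ _ (by omega) (by omega))
      (hi _ _ _ (by omega) (by omega) (by omega)) (hi _ _ _ (by omega) (by omega) (by omega))
      (hd _ _ _ hs (by omega) (by omega))
  have t2 : ∀ s, s < 3 → κ s = .z → κ (s + 1) = .y → κ (s + 2) = .w → False := by
    intro s hs a b d
    exact zyw (h s 0) (h s 1) (h (s + 1) 0) (h (s + 1) 1) (h (s + 1) 2) (h (s + 2) 1) (h (s + 2) 3)
      (a ▸ hk _ _ (by omega) (by omega)) (a ▸ hk _ _ (by omega) (by omega))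
      (b ▸ hk _ _ (by omega) (by omega)) (b ▸ hk _ _ (by omega) (by omega))
      (b ▸ hk _ _ (by omega) (by omega))
      (d ▸ hk _ _ (by omega) (by omega)) (d ▸ hk _ _ (by omega) (by omega))
      (hi _ _ _ (by omega) (by omega) (by omega)) (hi _ _ _ (by omega) (by omega) (by omega))
      (hi _ _ _ (by omega) (by omega) (by omega)) (hi _ _ _ (by omega) (by omega) (by omega))
      (hi _ _ _ (by omega) (by omega) (by omega)) (hi _ _ _ (by omega) (by omega) (by omega))
      (hb _ _ _ (by omega) (by omega) (by omega)) (hb _ _ _ (by omega) (by omega) (by omega))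
      (hc _ _ _ (by omega) (by omega) (by omega))
  have t3 : ∀ s, s < 3 → κ s = .w → κ (s + 1) = .z → (κ (s + 2) = .y ∨ κ (s + 2) = .j) →
      False := by
    intro s hs a b d
    exact wzy (h s 0) (h s 2) (h (s + 1) 1) (h (s + 1) 2) (h (s + 1) 3) (h (s + 2) 2) _ d
      (a ▸ hk _ _ (by omega) (by omega)) (a ▸ hk _ _ (by omega) (by omega))
      (b ▸ hk _ _ (by omega) (by omega)) (b ▸ hk _ _ (by omega) (by omega))
      (b ▸ hk _ _ (by omega) (by omega)) (hk _ _ (by omega) (by omega))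
      (hi _ _ _ (by omega) (by omega) (by omega)) (hi _ _ _ (by omega) (by omega) (by omega))
      (hi _ _ _ (by omega) (by omega) (by omega)) (hi _ _ _ (by omega) (by omega) (by omega))
      (hi _ _ _ (by omega) (by omega) (by omega))
      (hb _ _ _ (by omega) (by omega) (by omega)) (hb _ _ _ (by omega) (by omega) (by omega))
      (hc _ _ _ (by omega) (by omega) (by omega))
  have a0 := tr 0 (by omega)
  have a1 := tr 1 (by omega)
  have a2 := tr 2 (by omega)
  have a3 := tr 3 (by omega)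
  have b0 := t1 0 (by omega)
  have b1 := t1 1 (by omega)
  have b2 := t1 2 (by omega)
  have c0 := t2 0 (by omega)
  have c1 := t2 1 (by omega)
  have c2 := t2 2 (by omega)
  have d0 := t3 0 (by omega)
  have d1 := t3 1 (by omega)
  have d2 := t3 2 (by omega)
  simp only [Nat.reduceAdd, zero_add] at a0 a1 a2 a3 b0 b1 b2 c0 c1 c2 d0 d1 d2
  generalize κ 0 = k0 at *
  generalize κ 1 = k1 at *
  generalize κ 2 = k2 at *
  generalize κ 3 = k3 at *
  generalize κ 4 = k4 at *
  cases k0 <;> cases k1 <;> simp only [Tr] at a0 <;> cases k2 <;> simp only [Tr] at a1 <;>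
    cases k3 <;> simp only [Tr] at a2 <;> cases k4 <;> simp only [Tr] at a3 <;> simp_all

end Pool.Agent.H800Z.FF
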