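import Pool.Agent.H800Z.FF1

set_option autoImplicit false

/-!
The excluded poset (five layers, many tracks) does not embed in the poset of addresses.
-/

namespace Pool.Agent.H800Z.FF

/-- number of tracks -/
def R : ℕ := 3075

/-- points of the excluded poset -/
def valid (s i : ℕ) : Prop := s < 5 ∧ i < R ∧ ¬ (s = 0 ∧ i + 1 = R) ∧ ¬ (s = 4 ∧ i = 0)

/-- order of the excluded poset -/
def qle (s i s' i' : ℕ) : Prop := (s = s' ∧ i' ≤ i) ∨ (s + 1 = s' ∧ i' ≤ i) ∨ s + 2 ≤ s'

def Pattern (x : ℕ → ℕ → List Hd) : Prop :=
  ∀ s i s' i', valid s i → valid s' i' → (le (x s i) (x s' i') ↔ qle s i s' i')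

theorem le_cons (a b : Hd) (l m : List Hd) :
    le (a :: l) (b :: m) ↔ hlt a b ∨ (a = b ∧ le l m) := by
  simp only [le, lt, List.cons.injEq]
  tauto

theorem Pattern.ne_nil {x : ℕ → ℕ → List Hd} (hx : Pattern x) {s i : ℕ} (h : valid s i) :
    x s i ≠ [] := by
  intro h0
  have hR : R = 3075 := rfl
  by_cases hs : s ≤ 2
  · have hv : valid (s + 2) 1 := by unfold valid at *; omega
    have h1 := (hx s i (s + 2) 1 h hv).2 (by unfold qle; omega)
    have h2 := hx (s + 2) 1 s i hv h
    rw [h0] at h1 h2
    rcases h1 with h1 | h1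
    · have := h2.1 (Or.inl h1.symm)
      unfold qle at this
      omega
    · simp [lt] at h1
  · have hv : valid (s - 2) 0 := by unfold valid at *; omega
    have h1 := (hx (s - 2) 0 s i hv h).2 (by unfold qle; omega)
    have h2 := hx s i (s - 2) 0 h hv
    rw [h0] at h1 h2
    rcases h1 with h1 | h1
    · have := h2.1 (Or.inl h1.symm)
      unfold qle at this
      omega
    · cases hx' : x (s - 2) 0 with
      | nil => rw [hx'] at h1; simp [lt] at h1
      | cons a l => rw [hx'] at h1; simp [lt] at h1

theorem no_pattern_aux : ∀ n : ℕ, ∀ x : ℕ → ℕ → List Hd, Pattern x → (x 0 0).length = n →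
    False := by
  intro n
  induction n using Nat.strong_induction_on with
  | _ n ih =>
  intro x hx hn
  have hR : R = 3075 := rfl
  let h : ℕ → ℕ → Hd := fun s i => (x s i).headD ⟨.z, 0, 0, 0⟩
  let τ : ℕ → ℕ → List Hd := fun s i => (x s i).tail
  have hsplit : ∀ s i, valid s i → x s i = h s i :: τ s i := by
    intro s i hv
    have := hx.ne_nil hv
    simp only [h, τ]
    cases hx' : x s i with
    | nil => exact absurd hx' this
    | cons a l => simp
  have key : ∀ s i s' i', valid s i → valid s' i' →
      (qle s i s' i' ↔ hlt (h s i) (h s' i') ∨ (h s i = h s' i' ∧ le (τ s i) (τ s' i'))) := by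
    intro s i s' i' h1 h2
    rw [← hx s i s' i' h1 h2, hsplit s i h1, hsplit s' i' h2, le_cons]
  by_cases hall : ∀ s i, valid s i → h s i = h 0 0
  · have hv0 : valid 0 0 := by unfold valid; omega
    refine ih (τ 0 0).length ?_ τ ?_ rfl
    · rw [← hn, hsplit 0 0 hv0]
      simp
    · intro s i s' i' h1 h2
      rw [key s i s' i' h1 h2, hall s i h1, hall s' i' h2]
      simp [hlt_irrefl]
  -- an incomparable pair never shares its first letter
  have hedge : ∀ s i j, s < 4 → i < j → j < R → h s i ≠ h (s + 1) j := by
    intro s0 i0 j0 hs0 hij0 hj0 heq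
    apply hall
    set a := h s0 i0 with ha
    -- two closure steps
    have up : ∀ s i j j', s < 4 → i < j → j < R → i < j' → j' < R → h s i = a →
        h (s + 1) j = a → h (s + 1) j' = a := by
      intro s i j j' hs hij hj hij' hj' e1 e2
      by_contra hne
      have v1 : valid s i := by unfold valid; omega
      have v2 : valid (s + 1) j := by unfold valid; omega
      have v3 : valid (s + 1) j' := by unfold valid; omega
      have k1 := key s i (s + 1) j' v1 v3
      have k2 := key (s + 1) j' s i v3 v1
      have k3 := key (s + 1) j (s + 1) j' v2 v3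
      have k4 := key (s + 1) j' (s + 1) j v3 v2
      rw [e1] at k1 k2
      rw [e2] at k3 k4
      have hne' : ¬ a = h (s + 1) j' := fun e => hne e.symm
      simp only [hne, hne', false_and, or_false] at k1 k2 k3 k4
      rw [← k1] at k3
      rw [← k2] at k4
      unfold qle at k3 k4
      omega
    have dn : ∀ s i j i', s < 4 → i < j → j < R → i' < j → h s i = a →
        h (s + 1) j = a → h s i' = a := by
      intro s i j i' hs hij hj hij' e1 e2
      by_contra hne
      have v1 : valid s i := by unfold valid; omega
      have v2 : valid (s + 1) j := by unfold valid; omega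
      have v3 : valid s i' := by unfold valid; omega
      have k1 := key s i s i' v1 v3
      have k2 := key s i' s i v3 v1
      have k3 := key (s + 1) j s i' v2 v3
      have k4 := key s i' (s + 1) j v3 v2
      rw [e1] at k1 k2
      rw [e2] at k3 k4
      have hne' : ¬ a = h s i' := fun e => hne e.symm
      simp only [hne, hne', false_and, or_false] at k1 k2 k3 k4
      rw [← k1] at k3
      rw [← k2] at k4
      unfold qle at k3 k4
      omega
    have up2 : ∀ s i j j', s < 3 → i < j → j < j' → j' < R → h s i = a →
        h (s + 1) j = a → h (s + 2) j' = a := by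
      intro s i j j' hs hij hj hj' e1 e2
      by_contra hne
      have v1 : valid s i := by unfold valid; omega
      have v2 : valid (s + 1) j := by unfold valid; omega
      have v3 : valid (s + 2) j' := by unfold valid; omega
      have k1 := key s i (s + 2) j' v1 v3
      have k3 := key (s + 1) j (s + 2) j' v2 v3
      rw [e1] at k1
      rw [e2] at k3
      have hne' : ¬ a = h (s + 2) j' := fun e => hne e.symm
      simp only [hne', false_and, or_false] at k1 k3
      rw [← k1] at k3
      unfold qle at k3
      omega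
    have dn2 : ∀ s i j j', s < 3 → i < j → j < j' → j' < R → h (s + 1) j = a →
        h (s + 2) j' = a → h s i = a := by
      intro s i j j' hs hij hj hj' e1 e2
      by_contra hne
      have v1 : valid s i := by unfold valid; omega
      have v2 : valid (s + 1) j := by unfold valid; omega
      have v3 : valid (s + 2) j' := by unfold valid; omega
      have k1 := key s i (s + 2) j' v1 v3
      have k3 := key s i (s + 1) j v1 v2
      rw [e2] at k1
      rw [e1] at k3
      simp only [hne, false_and, or_false] at k1 k3
      rw [← k1] at k3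
      unfold qle at k3
      omega
    have hub : ∀ s i j, s < 4 → i < j → j < R → h s i = a → h (s + 1) j = a →
        h s 0 = a ∧ h (s + 1) (R - 1) = a := by
      intro s i j hs hij hj e1 e2
      exact ⟨dn s i j 0 hs hij hj (by omega) e1 e2,
        up s i j (R - 1) hs hij hj (by omega) (by omega) e1 e2⟩
    have hubup : ∀ s, s < 3 → (h s 0 = a ∧ h (s + 1) (R - 1) = a) →
        (h (s + 1) 0 = a ∧ h (s + 1 + 1) (R - 1) = a) := by
      intro s hs ⟨e1, e2⟩
      have e3 := up s 0 (R - 1) 1 (by omega) (by omega) (by omega) (by omega) (by omega) e1 e2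
      have e4 := up2 s 0 1 (R - 1) hs (by omega) (by omega) (by omega) e1 e3
      exact hub (s + 1) 1 (R - 1) (by omega) (by omega) (by omega) e3 e4
    have hubdn : ∀ s, s < 3 → (h (s + 1) 0 = a ∧ h (s + 1 + 1) (R - 1) = a) →
        (h s 0 = a ∧ h (s + 1) (R - 1) = a) := by
      intro s hs ⟨e1, e2⟩
      have e3 := dn (s + 1) 0 (R - 1) (R - 2) (by omega) (by omega) (by omega) (by omega) e1 e2
      have e4 := dn2 s 0 (R - 2) (R - 1) hs (by omega) (by omega) (by omega) e3 e2
      exact hub s 0 (R - 2) (by omega) (by omega) (by omega) e4 e3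
    have h0 := hub s0 i0 j0 hs0 hij0 hj0 rfl heq.symm
    have H0 : h 0 0 = a ∧ h (0 + 1) (R - 1) = a := by
      have d0 := hubdn 0 (by omega)
      have d1 := hubdn 1 (by omega)
      have d2 := hubdn 2 (by omega)
      have : s0 = 0 ∨ s0 = 1 ∨ s0 = 2 ∨ s0 = 3 := by omega
      rcases this with rfl | rfl | rfl | rfl
      · exact h0
      · exact d0 h0
      · exact d0 (d1 h0)
      · exact d0 (d1 (d2 h0))
    have H1 := hubup 0 (by omega) H0
    have H2 := hubup 1 (by omega) H1
    have H3 := hubup 2 (by omega) H2
    have HH : ∀ s, s < 4 → h s 0 = a ∧ h (s + 1) (R - 1) = a := by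
      intro s hs
      have : s = 0 ∨ s = 1 ∨ s = 2 ∨ s = 3 := by omega
      rcases this with rfl | rfl | rfl | rfl
      · exact H0
      · exact H1
      · exact H2
      · exact H3
    intro s i hv
    rw [H0.1]
    unfold valid at hv
    by_cases c1 : s < 4 ∧ i + 1 < R
    · exact dn s 0 (R - 1) i c1.1 (by omega) (by omega) (by omega) (HH s c1.1).1 (HH s c1.1).2
    · by_cases c2 : s = 4
      · subst c2
        exact up 3 0 (R - 1) i (by omega) (by omega) (by omega) (by omega) (by omega)
          (HH 3 (by omega)).1 (HH 3 (by omega)).2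
      · obtain ⟨s', rfl⟩ : ∃ s', s = s' + 1 := ⟨s - 1, by omega⟩
        have : i = R - 1 := by omega
        rw [this]
        exact (HH s' (by omega)).2
  -- pigeonhole on the kinds of the five letters of a track
  classical
  have hcard : (Finset.univ : Finset (Fin 5 → K)).card * 3 < (Finset.Ico 1 (R - 1)).card := by
    have : Fintype.card K = 4 := rfl
    simp [Finset.card_univ, this, hR]
  obtain ⟨κ, -, hκ⟩ := Finset.exists_lt_card_fiber_of_mul_lt_card_of_maps_to
    (s := Finset.Ico 1 (R - 1)) (t := (Finset.univ : Finset (Fin 5 → K)))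
    (f := fun i => fun s : Fin 5 => (h s i).k) (fun _ _ => Finset.mem_univ _) hcard
  set T := (Finset.Ico 1 (R - 1)).filter (fun i => (fun s : Fin 5 => (h s i).k) = κ) with hT
  let e : Fin 4 ↪o ℕ := T.orderEmbOfCardLe (k := 4) hκ
  have he : ∀ i, e i ∈ T := fun i => Finset.orderEmbOfCardLe_mem T hκ i
  let g : ℕ → ℕ := fun i => if hi : i < 4 then e ⟨i, hi⟩ else 1
  have hg1 : ∀ i, i < 4 → 1 ≤ g i ∧ g i < R - 1 ∧ (fun s : Fin 5 => (h s (g i)).k) = κ := by
    intro i hi
    have := he ⟨i, hi⟩
    rw [hT, Finset.mem_filter, Finset.mem_Ico] at this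
    simp only [g, hi, dif_pos]
    exact ⟨this.1.1, this.1.2, this.2⟩
  have hg2 : ∀ i j, i < j → j < 4 → g i < g j := by
    intro i j hij hj
    have hi : i < 4 := by omega
    simp only [g, hi, hj, dif_pos]
    exact e.strictMono (show (⟨i, hi⟩ : Fin 4) < ⟨j, hj⟩ from hij)
  have hg3 : ∀ i j, j ≤ i → i < 4 → g j ≤ g i := by
    intro i j hij hi
    rcases hij.eq_or_lt with rfl | hlt'
    · exact le_rfl
    · exact (hg2 j i hlt' hi).le
  have hv : ∀ s i, s < 5 → i < 4 → valid s (g i) := by
    intro s i hs hi
    have := hg1 i hi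
    unfold valid
    omega
  have hle' : ∀ s i s' i', valid s i → valid s' i' → qle s i s' i' → hle (h s i) (h s' i') := by
    intro s i s' i' v1 v2 hq
    rcases (key s i s' i' v1 v2).1 hq with k | k
    · exact Or.inr k
    · exact Or.inl k.1
  refine no_five (fun s i => h s (g i)) (fun s => if hs : s < 5 then κ ⟨s, hs⟩ else .z) ?_ ?_ ?_ ?_ ?_
  · intro s i hs hi
    simp only [hs, dif_pos]
    exact congrFun (hg1 i hi).2.2 ⟨s, hs⟩
  · intro s i j hs hij hj
    have v1 := hv s i (by omega) (by omega)
    have v2 := hv (s + 1) j (by omega) hj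
    have hlt' := hg2 i j hij hj
    have hne := hedge s (g i) (g j) hs hlt' v2.2.1
    have k1 := key _ _ _ _ v1 v2
    have k2 := key _ _ _ _ v2 v1
    constructor
    · rintro (k | k)
      · exact hne k
      · have := k1.2 (Or.inl k)
        unfold qle at this
        omega
    · rintro (k | k)
      · exact hne k.symm
      · have := k2.2 (Or.inl k)
        unfold qle at this
        omega
  · intro s i j hs hij hi
    have := hg3 i j hij hi
    exact hle' _ _ _ _ (hv s i (by omega) hi) (hv (s + 1) j (by omega) (by omega))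
      (by unfold qle; omega)
  · intro s i j hs hij hi
    have := hg3 i j hij hi
    exact hle' _ _ _ _ (hv s i hs hi) (hv s j hs (by omega)) (by unfold qle; omega)
  · intro s i j hs hi hj
    exact hle' _ _ _ _ (hv s i (by omega) hi) (hv (s + 2) j (by omega) hj) (by unfold qle; omega)

theorem no_pattern (x : ℕ → ℕ → List Hd) : ¬ Pattern x := fun hx => no_pattern_aux _ x hx rfl

end Pool.Agent.H800Z.FF
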