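import Pool.Agent.H800Z.FF2

set_option autoImplicit false

/-!
The finite posets of addresses, their First-Fit colouring and their width.
-/

namespace Pool.Agent.H800Z.FF

/-- number of colours at level `n` -/
def N : ℕ → ℕ
  | 0 => 0
  | n + 1 => (n + 1) * (N n + 1)

/-- the colour of an address at level `n` -/
def col : ℕ → List Hd → ℕ
  | n + 1, h :: l => h.c * (N n + 1) + (if h.k = .j then col n l else h.f)
  | 0, _ => 0
  | _ + 1, [] => 0

/-- the addresses of level `n` -/
def M : ℕ → List Hd → Prop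
  | n + 1, h :: l => h.t ≤ n ∧ h.f ≤ N n ∧ h.c ≤ h.t ∧ (h.k = .z → h.c < h.t) ∧
      (h.k ≠ .j → l = []) ∧ (h.k = .j → M n l ∧ col n l < h.f)
  | 0, _ => False
  | _ + 1, [] => False

/-- index of a chain in a chain cover -/
def chi : ℕ → List Hd → ℕ
  | n + 1, h :: l => match h.k with
    | .z => 0
    | .y => 1
    | .w => 2 + h.c
    | .j => 2 + chi n l
  | 0, _ => 0
  | _ + 1, [] => 0

theorem finite_M : ∀ n, {l | M n l}.Finite
  | 0 => by simp [M]
  | n + 1 => by
    have h1 : ((Set.univ : Set K) ×ˢ (Set.Iic n ×ˢ (Set.Iic n ×ˢ Set.Iic (N n)))).Finite :=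
      Set.finite_univ.prod ((Set.finite_Iic _).prod ((Set.finite_Iic _).prod (Set.finite_Iic _)))
    have h2 : (insert [] {l | M n l}).Finite := (finite_M n).insert _
    refine ((h1.prod h2).image
      (fun p : (K × ℕ × ℕ × ℕ) × List Hd =>
        (⟨p.1.1, p.1.2.1, p.1.2.2.1, p.1.2.2.2⟩ : Hd) :: p.2)).subset ?_
    intro l hl
    cases l with
    | nil => simp [M] at hl
    | cons h l =>
      simp only [Set.mem_ofPred_eq, M] at hl
      refine ⟨((h.k, h.t, h.c, h.f), l), ⟨⟨trivial, hl.1, ?_, hl.2.1⟩, ?_⟩, rfl⟩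
      · exact hl.2.2.1.trans hl.1
      · by_cases hk : h.k = .j
        · exact Or.inr (hl.2.2.2.2.2 hk).1
        · exact Or.inl (hl.2.2.2.2.1 hk)

theorem chi_lt : ∀ n l, M n l → chi n l < 2 * n + 1
  | 0, _, h => by simp [M] at h
  | _ + 1, [], h => by simp [M] at h
  | n + 1, ⟨k, t, c, f⟩ :: l, h => by
    simp only [M] at h
    cases k
    · simp [chi]
    · simp only [chi]; omega
    · simp only [chi]; omega
    · have := chi_lt n l (h.2.2.2.2.2 rfl).1
      simp only [chi]; omega

theorem chi_chain : ∀ n l m, M n l → M n m → chi n l = chi n m → le l m ∨ le m l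
  | 0, _, _, h, _, _ => by simp [M] at h
  | _ + 1, [], _, h, _, _ => by simp [M] at h
  | _ + 1, _ :: _, [], _, h, _ => by simp [M] at h
  | n + 1, ⟨k, t, c, f⟩ :: l, ⟨k', t', c', f'⟩ :: m, h1, h2, h3 => by
    simp only [M] at h1 h2
    rw [le_cons, le_cons]
    by_cases he : k = k' ∧ t = t' ∧ c = c' ∧ f = f'
    · obtain ⟨rfl, rfl, rfl, rfl⟩ := he
      by_cases hk : k = .j
      · subst hk
        simp only [chi, Nat.add_left_cancel_iff] at h3
        rcases chi_chain n l m (h1.2.2.2.2.2 rfl).1 (h2.2.2.2.2.2 rfl).1 h3 with h | h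
        · exact Or.inl (Or.inr ⟨rfl, h⟩)
        · exact Or.inr (Or.inr ⟨rfl, h⟩)
      · rw [h1.2.2.2.2.1 hk, h2.2.2.2.2.1 hk]
        exact Or.inl (Or.inr ⟨rfl, Or.inl rfl⟩)
    · have : hlt ⟨k, t, c, f⟩ ⟨k', t', c', f'⟩ ∨ hlt ⟨k', t', c', f'⟩ ⟨k, t, c, f⟩ := by
        cases k <;> cases k' <;> simp only [chi] at h3 <;>
          simp only [hlt, hl, true_and, reduceCtorEq, false_and] at he ⊢ <;> omega
      rcases this with h | h
      · exact Or.inl (Or.inl h)
      · exact Or.inr (Or.inl h)

theorem lex_eq {m c c' a a' : ℕ} (ha : a < m) (ha' : a' < m) (h : c * m + a = c' * m + a') :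
    c = c' ∧ a = a' := by
  have h1 : c = c' := by
    have e1 : (c * m + a) / m = c := by
      rw [Nat.add_comm, Nat.add_mul_div_right _ _ (by omega), Nat.div_eq_of_lt ha]; simp
    have e2 : (c' * m + a') / m = c' := by
      rw [Nat.add_comm, Nat.add_mul_div_right _ _ (by omega), Nat.div_eq_of_lt ha']; simp
    rw [← e1, ← e2, h]
  subst h1
  exact ⟨rfl, by omega⟩

theorem lex_lt {m c a κ : ℕ} (ha : a < m) (h : κ < c * m + a) :
    κ / m < c ∨ (κ / m = c ∧ κ % m < a) := by
  have hm : 0 < m := by omega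
  have e := Nat.div_add_mod κ m
  have e2 := Nat.mod_lt κ hm
  rcases lt_trichotomy (κ / m) c with h1 | h1 | h1
  · exact Or.inl h1
  · right
    refine ⟨h1, ?_⟩
    rw [h1, Nat.mul_comm] at e
    omega
  · exfalso
    have : (c + 1) * m ≤ m * (κ / m) := by
      rw [Nat.mul_comm]
      exact Nat.mul_le_mul_left _ h1
    rw [Nat.add_mul] at this
    omega

theorem col_chain : ∀ n l m, M n l → M n m → col n l = col n m → le l m ∨ le m l
  | 0, _, _, h, _, _ => by simp [M] at h
  | _ + 1, [], _, h, _, _ => by simp [M] at h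
  | _ + 1, _ :: _, [], _, h, _ => by simp [M] at h
  | n + 1, ⟨k, t, c, f⟩ :: l, ⟨k', t', c', f'⟩ :: m, h1, h2, h3 => by
    simp only [M] at h1 h2
    simp only [col] at h3
    have b1 : (if k = .j then col n l else f) < N n + 1 := by
      split_ifs with hk
      · have := (h1.2.2.2.2.2 hk).2
        omega
      · omega
    have b2 : (if k' = .j then col n m else f') < N n + 1 := by
      split_ifs with hk
      · have := (h2.2.2.2.2.2 hk).2
        omega
      · omega
    obtain ⟨e1, e2⟩ := lex_eq b1 b2 h3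
    rw [le_cons, le_cons]
    by_cases he : k = k' ∧ t = t' ∧ c = c' ∧ f = f'
    · obtain ⟨rfl, rfl, rfl, rfl⟩ := he
      by_cases hk : k = .j
      · subst hk
        simp only [if_true] at e2
        rcases col_chain n l m (h1.2.2.2.2.2 rfl).1 (h2.2.2.2.2.2 rfl).1 e2 with h | h
        · exact Or.inl (Or.inr ⟨rfl, h⟩)
        · exact Or.inr (Or.inr ⟨rfl, h⟩)
      · rw [h1.2.2.2.2.1 hk, h2.2.2.2.2.1 hk]
        exact Or.inl (Or.inr ⟨rfl, Or.inl rfl⟩)
    · have g1 : k = .j → col n l < f := fun hk => (h1.2.2.2.2.2 hk).2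
      have g2 : k' = .j → col n m < f' := fun hk => (h2.2.2.2.2.2 hk).2
      have : hlt ⟨k, t, c, f⟩ ⟨k', t', c', f'⟩ ∨ hlt ⟨k', t', c', f'⟩ ⟨k, t, c, f⟩ := by
        cases k <;> cases k' <;>
          simp only [hlt, hl, true_and, reduceCtorEq, false_and, if_true, if_false,
            forall_true_left, IsEmpty.forall_iff] at he e2 g1 g2 ⊢ <;> omega
      rcases this with h | h
      · exact Or.inl (Or.inl h)
      · exact Or.inr (Or.inl h)

theorem col_surj : ∀ n κ, κ < N n → ∃ l, M n l ∧ col n l = κ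
  | 0, _, h => by simp [N] at h
  | n + 1, κ, h => by
    have hm : 0 < N n + 1 := by omega
    have h1 : κ / (N n + 1) < n + 1 := by
      rw [Nat.div_lt_iff_lt_mul hm]
      exact h
    have h2 := Nat.mod_lt κ hm
    refine ⟨[⟨.y, n, κ / (N n + 1), κ % (N n + 1)⟩], ?_, ?_⟩
    · simp only [M]
      refine ⟨le_rfl, by omega, by omega, by simp, by simp, by simp⟩
    · simp only [col, reduceCtorEq, if_false]
      exact Nat.div_add_mod' κ (N n + 1)

theorem witness : ∀ n l κ, M n l → κ < col n l →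
    ∃ m, M n m ∧ col n m = κ ∧ ¬ le l m ∧ ¬ le m l
  | 0, _, _, h, _ => by simp [M] at h
  | _ + 1, [], _, h, _ => by simp [M] at h
  | n + 1, ⟨k, t, c, f⟩ :: l, κ, h1, h2 => by
    simp only [M] at h1
    simp only [col] at h2
    have b1 : (if k = .j then col n l else f) < N n + 1 := by
      split_ifs with hk
      · have := (h1.2.2.2.2.2 hk).2
        omega
      · omega
    have hm : 0 < N n + 1 := by omega
    have hlex := lex_lt b1 h2
    have h3 := Nat.mod_lt κ hm
    have h4 := Nat.div_add_mod' κ (N n + 1)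
    obtain ⟨a1, a2, a3, a4, a5, a6⟩ := h1
    generalize κ / (N n + 1) = c' at *
    generalize κ % (N n + 1) = f' at *
    -- a one-letter witness
    have one : ∀ (k' : K) (t' : ℕ), k' ≠ .j → k' ≠ k → t' ≤ n → c' ≤ t' → (k' = .z → c' < t') →
        ¬ hlt ⟨k, t, c, f⟩ ⟨k', t', c', f'⟩ → ¬ hlt ⟨k', t', c', f'⟩ ⟨k, t, c, f⟩ →
        ∃ m, M (n + 1) m ∧ col (n + 1) m = κ ∧ ¬ le (⟨k, t, c, f⟩ :: l) m ∧
          ¬ le m (⟨k, t, c, f⟩ :: l) := by
      intro k' t' n1 n2 n3 n4 n5 n6 n7
      refine ⟨[⟨k', t', c', f'⟩], ?_, ?_, ?_, ?_⟩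
      · simp only [M]
        exact ⟨n3, by omega, n4, n5, fun _ => trivial, fun e => absurd e n1⟩
      · simp only [col, n1, if_false]
        exact h4
      · rw [le_cons]
        rintro (e | ⟨e, _⟩)
        · exact n6 e
        · exact n2 (congrArg Hd.k e).symm
      · rw [le_cons]
        rintro (e | ⟨e, _⟩)
        · exact n7 e
        · exact n2 (congrArg Hd.k e)
    cases k
    · have a4' := a4 rfl
      simp only [reduceCtorEq, if_false] at hlex
      refine one .w (t - 1) (by simp) (by simp) (by omega) (by omega) (by simp) ?_ ?_ <;>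
        simp only [hlt, hl] <;> omega
    · simp only [reduceCtorEq, if_false] at hlex
      rcases hlex with hlex | hlex
      · refine one .z t (by simp) (by simp) (by omega) (by omega) (fun _ => by omega) ?_ ?_ <;>
          simp only [hlt, hl] <;> omega
      · obtain ⟨m, hm1, hm2⟩ := col_surj n f' (by omega)
        refine ⟨⟨.j, t, c, f⟩ :: m, ?_, ?_, ?_, ?_⟩
        · simp only [M]
          exact ⟨a1, a2, a3, by simp, by simp, fun _ => ⟨hm1, by omega⟩⟩
        · simp only [col, if_true]
          rw [hm2, ← hlex.1]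
          exact h4
        · rw [le_cons]
          simp [hlt, hl]
        · rw [le_cons]
          simp [hlt, hl]
    · simp only [reduceCtorEq, if_false] at hlex
      refine one .y t (by simp) (by simp) (by omega) (by omega) (by simp) ?_ ?_ <;>
        simp only [hlt, hl] <;> omega
    · simp only [if_true] at hlex
      rcases hlex with hlex | hlex
      · refine one .z t (by simp) (by simp) (by omega) (by omega) (fun _ => by omega) ?_ ?_ <;>
          simp only [hlt, hl] <;> omega
      · obtain ⟨g1, g2⟩ := a6 rfl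
        obtain ⟨m, hm1, hm2, hm3, hm4⟩ := witness n l f' g1 hlex.2
        refine ⟨⟨.j, t, c, f⟩ :: m, ?_, ?_, ?_, ?_⟩
        · simp only [M]
          exact ⟨a1, a2, a3, by simp, by simp, fun _ => ⟨hm1, by omega⟩⟩
        · simp only [col, if_true]
          rw [hm2, ← hlex.1]
          exact h4
        · rw [le_cons]
          simp [hlt_irrefl, hm3]
        · rw [le_cons]
          simp [hlt_irrefl, hm4]

theorem factorial_le_N : ∀ n, 1 ≤ n → n.factorial ≤ N n
  | 0, h => by omega
  | 1, _ => by simp [N]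
  | n + 2, _ => by
    have := factorial_le_N (n + 1) (by omega)
    rw [Nat.factorial_succ, N]
    exact Nat.mul_le_mul_left _ (by omega)

end Pool.Agent.H800Z.FF
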