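import Pool.Agent.H800Z.FF3

set_option autoImplicit false

/-!
First-Fit uses at least `n!` chains on a `Q`-free poset of width at most `2n + 1`.
-/

namespace Pool.Agent.H800Z.FF

instance (s i : ℕ) : Decidable (valid s i) := by unfold valid; infer_instance

/-- the excluded poset -/
def Q : Type := {p : Fin 5 × Fin R // valid p.1 p.2}

instance : Fintype Q := by unfold Q; infer_instance

instance : PartialOrder Q where
  le p q := qle p.1.1 p.1.2 q.1.1 q.1.2
  le_refl p := by unfold qle; omega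
  le_trans p q r h1 h2 := by unfold qle at *; omega
  le_antisymm p q h1 h2 := by
    apply Subtype.ext
    unfold qle at *
    apply Prod.ext <;> apply Fin.ext <;> omega

theorem Q_le (p q : Q) : p ≤ q ↔ qle p.1.1 p.1.2 q.1.1 q.1.2 := Iff.rfl

/-- the posets on which First-Fit is bad -/
def P (n : ℕ) : Type := {l : List Hd // M n l}

noncomputable instance (n : ℕ) : Fintype (P n) := (finite_M n).fintype

instance (n : ℕ) : PartialOrder (P n) where
  le p q := le p.1 q.1
  le_refl _ := Or.inl rfl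
  le_trans _ _ _ h1 h2 := le_trans' h1 h2
  le_antisymm _ _ h1 h2 := Subtype.ext (le_antisymm' h1 h2)

theorem P_le (n : ℕ) (p q : P n) : p ≤ q ↔ le p.1 q.1 := Iff.rfl

theorem Q_two : ∃ s : Finset Q, IsAntichain (· ≤ ·) (s : Set Q) ∧ s.card = 2 := by
  classical
  have hR : R = 3075 := rfl
  let a : Q := ⟨(⟨0, by omega⟩, ⟨0, by omega⟩), by unfold valid; simp only; omega⟩
  let b : Q := ⟨(⟨1, by omega⟩, ⟨1, by omega⟩), by unfold valid; simp only; omega⟩
  have hab : ¬ a ≤ b := by rw [Q_le]; unfold qle; simp only [a, b]; omega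
  have hba : ¬ b ≤ a := by rw [Q_le]; unfold qle; simp only [a, b]; omega
  have hne : a ≠ b := fun e => hab (le_of_eq e)
  refine ⟨{a, b}, ?_, Finset.card_pair hne⟩
  intro x hx y hy hxy
  simp only [Finset.coe_insert, Finset.coe_singleton, Set.mem_insert_iff,
    Set.mem_singleton_iff] at hx hy
  rcases hx with rfl | rfl <;> rcases hy with rfl | rfl
  · exact absurd rfl hxy
  · exact hab
  · exact hba
  · exact absurd rfl hxy

theorem Q_width (s : Finset Q) (hs : IsAntichain (· ≤ ·) (s : Set Q)) : s.card ≤ 2 := by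
  have : s.card ≤ (Finset.range 2).card := by
    apply Finset.card_le_card_of_injOn (fun p : Q => (p.1.1 : ℕ) % 2)
    · intro p _
      simp only [Finset.coe_range, Set.mem_Iio]
      omega
    · intro p hp q hq h
      by_contra hne
      have h1 : ¬ p ≤ q := hs hp hq hne
      have h2 : ¬ q ≤ p := hs hq hp (Ne.symm hne)
      rw [Q_le] at h1 h2
      unfold qle at h1 h2
      simp only at h
      omega
  simpa using this

theorem P_width (n : ℕ) (s : Finset (P n)) (hs : IsAntichain (· ≤ ·) (s : Set (P n))) :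
    s.card ≤ 2 * n + 1 := by
  have : s.card ≤ (Finset.range (2 * n + 1)).card := by
    apply Finset.card_le_card_of_injOn (fun p : P n => chi n p.1)
    · intro p _
      simp only [Finset.coe_range, Set.mem_Iio]
      exact chi_lt n p.1 p.2
    · intro p hp q hq h
      by_contra hne
      rcases chi_chain n p.1 q.1 p.2 q.2 h with h1 | h1
      · exact hs hp hq hne h1
      · exact hs hq hp (Ne.symm hne) h1
  simpa using this

theorem Q_free (n : ℕ) : IsEmpty (Q ↪o P n) := by
  refine ⟨fun φ => ?_⟩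
  classical
  refine no_pattern (fun s i =>
    if h : valid s i then (φ ⟨(⟨s, h.1⟩, ⟨i, h.2.1⟩), h⟩).1 else []) ?_
  intro s i s' i' h1 h2
  simp only [h1, h2, dif_pos]
  rw [← P_le, φ.le_iff_le, Q_le]

theorem main :
    ∃ (Q : Type) (_ : Fintype Q) (_ : PartialOrder Q),
      (∃ s : Finset Q, IsAntichain (· ≤ ·) (s : Set Q) ∧ s.card = 2) ∧
      (∀ s : Finset Q, IsAntichain (· ≤ ·) (s : Set Q) → s.card ≤ 2) ∧
      ∀ C : ℕ, ∃ w : ℕ, ∃ (P : Type) (_ : Fintype P) (_ : PartialOrder P),
        (∀ s : Finset P, IsAntichain (· ≤ ·) (s : Set P) → s.card ≤ w) ∧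
        IsEmpty (Q ↪o P) ∧
        ∃ (ord : P → ℕ) (f : P → ℕ),
          Function.Injective ord ∧
          (∀ x y : P, ord y < ord x → f y = f x → (x ≤ y ∨ y ≤ x)) ∧
          (∀ x : P, ∀ c : ℕ, c < f x →
            ∃ y : P, ord y < ord x ∧ f y = c ∧ ¬ x ≤ y ∧ ¬ y ≤ x) ∧
          ∃ x : P, C ^ w ≤ f x := by
  refine ⟨Q, inferInstance, inferInstance, Q_two, Q_width, fun C => ?_⟩
  obtain ⟨n, hn1, hn2⟩ := ((Nat.eventually_pow_lt_factorial_sub ((C + 1) ^ 3) 0).and
    (Filter.eventually_ge_atTop 1)).exists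
  have hbig : C ^ (2 * n + 1) < N n := by
    calc C ^ (2 * n + 1) ≤ (C + 1) ^ (2 * n + 1) := Nat.pow_le_pow_left (by omega) _
      _ ≤ (C + 1) ^ (3 * n) := Nat.pow_le_pow_right (by omega) (by omega)
      _ = ((C + 1) ^ 3) ^ n := by rw [pow_mul]
      _ < (n - 0).factorial := hn1
      _ ≤ N n := factorial_le_N n hn2
  let e := Fintype.equivFin (P n)
  refine ⟨2 * n + 1, P n, inferInstance, inferInstance, P_width n, Q_free n,
    fun x => col n x.1 * Fintype.card (P n) + e x, fun x => col n x.1, ?_, ?_, ?_, ?_⟩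
  · intro x y h
    have := (lex_eq (e x).2 (e y).2 h).2
    exact e.injective (Fin.ext this)
  · intro x y _ h
    exact col_chain n x.1 y.1 x.2 y.2 h.symm
  · intro x c hc
    obtain ⟨m, hm1, hm2, hm3, hm4⟩ := witness n x.1 c x.2 hc
    refine ⟨⟨m, hm1⟩, ?_, hm2, hm3, hm4⟩
    have h1 := (e ⟨m, hm1⟩).2
    have h2 : (c + 1) * Fintype.card (P n) ≤ col n x.1 * Fintype.card (P n) :=
      Nat.mul_le_mul_right _ hc
    simp only [hm2]
    rw [Nat.add_mul] at h2
    omega
  · obtain ⟨l, h1, h2⟩ := col_surj n _ hbig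
    exact ⟨⟨l, h1⟩, h2.ge⟩

end Pool.Agent.H800Z.FF
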